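import Mathlib

/-!
# TT: supports, torsion and annihilators (helper86)
-/

namespace Pool.Agent.H86.TT

/-- a finitely generated module is `I`-torsion iff its support is contained in `V(I)` -/
theorem torsion_iff {R M : Type*} [CommRing R] [IsNoetherianRing R] [AddCommGroup M] [Module R M]
    [Module.Finite R M] (I : Ideal R) :
    (∀ x : M, ∃ N : ℕ, ∀ r ∈ I ^ N, r • x = 0) ↔
      Module.support R M ⊆ PrimeSpectrum.zeroLocus (I : Set R) := by
  constructor
  · intro h P hP
    obtain ⟨x, hx⟩ := Module.mem_support_iff'.1 hP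
    obtain ⟨N, hN⟩ := h x
    intro r hr
    by_contra hrP
    have h1 : r ^ N ∉ P.asIdeal := fun h2 => hrP (P.isPrime.mem_of_pow_mem N h2)
    exact hx _ h1 (hN _ (Ideal.pow_mem_pow hr N))
  · intro h x
    rw [Module.support_eq_zeroLocus, PrimeSpectrum.zeroLocus_subset_zeroLocus_iff] at h
    obtain ⟨N, hN⟩ := Ideal.exists_pow_le_of_le_radical_of_fg h (IsNoetherian.noetherian I)
    exact ⟨N, fun r hr => Module.mem_annihilator.1 (hN hr) x⟩

/-- the annihilator of a module with a semilinear automorphism is stable -/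
theorem ann_stable {R M : Type*} [CommRing R] [AddCommGroup M] [Module R M] (g : R →+* R)
    (φ : M ≃+ M) (h : ∀ (r : R) (x : M), φ (r • x) = g r • φ x) :
    (Module.annihilator R M).map g ≤ Module.annihilator R M := by
  rw [Ideal.map_le_iff_le_comap]
  intro r hr
  rw [Ideal.mem_comap, Module.mem_annihilator]
  intro x
  have h1 := h r (φ.symm x)
  rw [Module.mem_annihilator.1 hr, map_zero, φ.apply_symm_apply] at h1
  exact h1.symm

end Pool.Agent.H86.TT
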