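import Pool.Agent.H13.CA.FB
import Pool.Agent.H86.TT.Cat
import Pool.Agent.H86.TT.Sup

/-!
# TT: the classification of thick tensor-ideals (helper86)
-/

open CategoryTheory Limits Pretriangulated MonoidalCategory Category
open scoped ZeroObject

namespace Pool.Agent.H86.TT

open Pool.Agent.H13.FD

universe w v u

variable {p : ℕ} [Fact p.Prime] {k : Type w} [Field k] {m : ℕ}

theorem inv_mono (F : FormalGroup (LT p k m)) {i j : ℕ} (h : i ≤ j) : inv p F i ≤ inv p F j := by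
  cases i with
  | zero => exact bot_le
  | succ i =>
    cases j with
    | zero => omega
    | succ j =>
      refine Ideal.span_mono (Set.union_subset_union_right _ ?_)
      rintro y ⟨l, hl, hl', rfl⟩
      exact ⟨l, hl, by omega, rfl⟩

/-- the support of a finitely generated module with a semilinear action of the lifts -/
theorem supp_cases [CharP k p] [PerfectRing k p] {F : FormalGroup (LT p k m)} (hF : IsUniversal F)
    (hA : AutDef (F.map (res p k m))) {M : Type*} [AddCommGroup M] [Module (LT p k m) M]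
    [Module.Finite (LT p k m) M]
    (hM : ∀ a : (LT p k m ≃ₐ[WittVector p k] LT p k m) × PowerSeries (LT p k m), IsLift F a →
      ∃ φ : M ≃+ M, ∀ (r : LT p k m) (x : M), φ (r • x) = a.1 r • φ x) :
    Module.support (LT p k m) M = ∅ ∨ ∃ j, j ≤ m + 1 ∧
      Module.support (LT p k m) M = PrimeSpectrum.zeroLocus (inv p F j : Set (LT p k m)) := by
  by_cases hJ : (Module.annihilator (LT p k m) M).radical = ⊤
  · left
    rw [Module.support_eq_zeroLocus, ← PrimeSpectrum.zeroLocus_radical, hJ]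
    exact PrimeSpectrum.zeroLocus_univ
  · right
    have h1 := (Pool.Agent.H13.CA.final_ideals hF hA (Module.annihilator (LT p k m) M).radical
      (Ideal.radical_isRadical _) hJ).1 ⟨0, fun a ha _ => by
        obtain ⟨φ, hφ⟩ := hM a ha
        exact (Ideal.map_radical_le _).trans (Ideal.radical_mono (ann_stable
          (a.1 : LT p k m →+* LT p k m) φ hφ))⟩
    rw [Module.support_eq_zeroLocus, ← PrimeSpectrum.zeroLocus_radical]
    rcases h1 with h1 | ⟨j, hj, h1⟩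
    · exact ⟨0, Nat.zero_le _, by rw [h1]; rfl⟩
    · exact ⟨j + 1, by omega, by rw [h1]; rfl⟩

variable {T : Type u} [Category.{v} T] [HasZeroObject T] [Preadditive T] [HasShift T ℤ]
  [∀ n : ℤ, (shiftFunctor T n).Additive] [Pretriangulated T] [MonoidalCategory T]
  [MonoidalPreadditive T]

omit [HasZeroObject T] [HasShift T ℤ] [∀ n : ℤ, (shiftFunctor T n).Additive] [Pretriangulated T] in
theorem isZero_tensor {X : T} (hX : IsZero X) (Y : T) : IsZero (X ⊗ Y) := by
  rw [IsZero.iff_id_eq_zero, ← id_whiskerRight, hX.eq_of_src (𝟙 X) 0,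
    MonoidalPreadditive.zero_whiskerRight]

omit [HasZeroObject T] [HasShift T ℤ] [∀ n : ℤ, (shiftFunctor T n).Additive] [Pretriangulated T] in
theorem isZero_tensor' {X : T} (hX : IsZero X) (Y : T) : IsZero (Y ⊗ X) := by
  rw [IsZero.iff_id_eq_zero, ← whiskerLeft_id, hX.eq_of_src (𝟙 X) 0,
    MonoidalPreadditive.whiskerLeft_zero]

omit [MonoidalCategory T] [MonoidalPreadditive T] in
theorem isThick_zero : IsThick (fun X : T => IsZero X) where
  zero := fun _ h => h
  susp := fun X h => (shiftFunctor T (1 : ℤ)).map_isZero h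
  desusp := fun X h => (shiftFunctor T (-1 : ℤ)).map_isZero h
  cofibre := fun A B C f g h hT hA hB => Triangle.isZero₃_of_isZero₁₂ _ hT hA hB
  retract := fun A B i r h hB => by
    rw [IsZero.iff_id_eq_zero, ← h, hB.eq_of_tgt i 0, zero_comp]

theorem isThickTensorIdeal_zero (hdual : IsThick (IsDualizable (T := T))) :
    IsThickTensorIdeal (fun X : T => IsZero X) where
  thick := isThick_zero
  dual := fun X h => hdual.zero X h
  tensor := fun _ Y h _ => isZero_tensor h Y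

omit [HasZeroObject T] [∀ n : ℤ, (shiftFunctor T n).Additive] [Pretriangulated T] in
theorem smul_def {R : Type w} [CommRing R] {E : T} (ρ : R →+* End E) (X : T) (r : R)
    (x : MoravaModule ρ X) :
    r • x = ((x.1 ≫ ((ρ r : E ⟶ E) ▷ X), x.2 ≫ ((ρ r : E ⟶ E) ▷ X)) :
      (𝟙_ T ⟶ E ⊗ X) × ((𝟙_ T)⟦(1 : ℤ)⟧ ⟶ E ⊗ X)) := rfl

omit [HasZeroObject T] [∀ n : ℤ, (shiftFunctor T n).Additive] [Pretriangulated T] in
/-- an automorphism of `E` acts on Morava modules -/
theorem action_module {R : Type w} [CommRing R] {E : T} (ρ : R →+* End E) {g : R → R} (φ : E ≅ E)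
    (h : ∀ r : R, (ρ r : E ⟶ E) ≫ φ.hom = φ.hom ≫ ρ (g r)) (X : T) :
    ∃ ψ : MoravaModule ρ X ≃+ MoravaModule ρ X, ∀ (r : R) (x : MoravaModule ρ X),
      ψ (r • x) = g r • ψ x := by
  let ψ : ((𝟙_ T ⟶ E ⊗ X) × ((𝟙_ T)⟦(1 : ℤ)⟧ ⟶ E ⊗ X)) ≃+
      ((𝟙_ T ⟶ E ⊗ X) × ((𝟙_ T)⟦(1 : ℤ)⟧ ⟶ E ⊗ X)) :=
    { toFun := fun x => (x.1 ≫ (φ.hom ▷ X), x.2 ≫ (φ.hom ▷ X)),
      invFun := fun x => (x.1 ≫ (φ.inv ▷ X), x.2 ≫ (φ.inv ▷ X)),
      left_inv := by
        rintro ⟨x, y⟩
        show ((x ≫ (φ.hom ▷ X)) ≫ (φ.inv ▷ X), (y ≫ (φ.hom ▷ X)) ≫ (φ.inv ▷ X)) = (x, y)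
        rw [assoc, assoc, ← comp_whiskerRight, φ.hom_inv_id, id_whiskerRight, comp_id, comp_id],
      right_inv := by
        rintro ⟨x, y⟩
        show ((x ≫ (φ.inv ▷ X)) ≫ (φ.hom ▷ X), (y ≫ (φ.inv ▷ X)) ≫ (φ.hom ▷ X)) = (x, y)
        rw [assoc, assoc, ← comp_whiskerRight, φ.inv_hom_id, id_whiskerRight, comp_id, comp_id],
      map_add' := by
        rintro ⟨x, y⟩ ⟨x', y'⟩
        show ((x + x') ≫ (φ.hom ▷ X), (y + y') ≫ (φ.hom ▷ X)) =
          (x ≫ (φ.hom ▷ X) + x' ≫ (φ.hom ▷ X), y ≫ (φ.hom ▷ X) + y' ≫ (φ.hom ▷ X))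
        rw [Preadditive.add_comp, Preadditive.add_comp] }
  refine ⟨ψ, ?_⟩
  rintro r ⟨x, y⟩
  show ((x ≫ ((ρ r : E ⟶ E) ▷ X)) ≫ (φ.hom ▷ X), (y ≫ ((ρ r : E ⟶ E) ▷ X)) ≫ (φ.hom ▷ X)) =
    (((x ≫ (φ.hom ▷ X)) ≫ ((ρ (g r) : E ⟶ E) ▷ X), (y ≫ (φ.hom ▷ X)) ≫ ((ρ (g r) : E ⟶ E) ▷ X)) :
      (𝟙_ T ⟶ E ⊗ X) × ((𝟙_ T)⟦(1 : ℤ)⟧ ⟶ E ⊗ X))
  rw [assoc, assoc, assoc, assoc, ← comp_whiskerRight, ← comp_whiskerRight, h]

/-- **Hovey-Strickland** -/
theorem classification [IsTriangulated T] [BraidedCategory T] [CharP k p] [PerfectRing k p]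
    {F : FormalGroup (LT p k m)} (hF : IsUniversal F) (hA : AutDef (F.map (res p k m)))
    {E : T} {ρ : LT p k m →+* End E} {Ft : ℕ → T → Prop} (h : IsMorava F E ρ Ft)
    {C : T → Prop} (hC : IsThickTensorIdeal C) :
    ∃ j, j ≤ m + 2 ∧ ∀ X, C X ↔ D (m + 1) Ft j X := by
  classical
  have hsupp : ∀ X, IsDualizable X → Module.support (LT p k m) (MoravaModule ρ X) = ∅ ∨
      ∃ j, j ≤ m + 1 ∧ Module.support (LT p k m) (MoravaModule ρ X) =
        PrimeSpectrum.zeroLocus (inv p F j : Set (LT p k m)) := by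
    intro X hX
    have := h.finite X hX
    refine supp_cases hF hA fun a ha => ?_
    obtain ⟨φ, hφ⟩ := h.action a ha
    exact action_module ρ φ hφ X
  have hmem : ∀ X Y, C X → IsDualizable Y →
      Module.support (LT p k m) (MoravaModule ρ Y) ⊆ Module.support (LT p k m) (MoravaModule ρ X) →
        C Y :=
    fun X Y hX hY hs => mem_of h.exact h.dual h.descent hC hX hY (h.perfect X Y (hC.dual X hX) hY hs)
  have hzero : ∀ X, IsDualizable X → Module.support (LT p k m) (MoravaModule ρ X) = ∅ →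
      IsZero X := by
    intro X hX hs
    have h0 : IsDualizable (0 : T) := h.dual.zero _ (isZero_zero T)
    exact mem_of h.exact h.dual h.descent (isThickTensorIdeal_zero h.dual) (X := (0 : T))
      (isZero_zero T) hX (h.perfect _ _ h0 hX (by rw [hs]; exact Set.empty_subset _))
  have htor : ∀ j, j ≤ m + 1 → ∀ X, IsDualizable X → (D (m + 1) Ft j X ↔
      Module.support (LT p k m) (MoravaModule ρ X) ⊆
        PrimeSpectrum.zeroLocus (inv p F j : Set (LT p k m))) := by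
    intro j hj X hX
    have := h.finite X hX
    rw [h.torsion j hj X hX]
    exact torsion_iff _
  by_cases hex : ∃ j, j ≤ m + 1 ∧ ∃ X, C X ∧
      Module.support (LT p k m) (MoravaModule ρ X) =
        PrimeSpectrum.zeroLocus (inv p F j : Set (LT p k m))
  · obtain ⟨hj, X, hX, hs⟩ := Nat.find_spec hex
    refine ⟨Nat.find hex, by omega, fun Y => ⟨fun hY => ?_, fun hY => ?_⟩⟩
    · refine (htor _ hj Y (hC.dual Y hY)).2 ?_
      rcases hsupp Y (hC.dual Y hY) with h1 | ⟨i, hi, h1⟩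
      · rw [h1]
        exact Set.empty_subset _
      · rw [h1]
        refine PrimeSpectrum.zeroLocus_anti_mono ?_
        exact inv_mono F (Nat.find_min' hex ⟨hi, Y, hY, h1⟩)
    · have hYd : IsDualizable Y := by
        rcases hY with ⟨-, h1, -⟩ | ⟨h1, -⟩
        · exact h1
        · omega
      refine hmem X Y hX hYd ?_
      rw [hs]
      exact (htor _ hj Y hYd).1 hY
  · refine ⟨m + 2, le_rfl, fun Y => ⟨fun hY => ?_, fun hY => ?_⟩⟩
    · refine Or.inr ⟨by omega, hzero Y (hC.dual Y hY) ?_⟩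
      rcases hsupp Y (hC.dual Y hY) with h1 | ⟨i, hi, h1⟩
      · exact h1
      · exact absurd ⟨i, hi, Y, hY, h1⟩ hex
    · rcases hY with ⟨h1, -⟩ | ⟨-, h1⟩
      · omega
      · exact hC.thick.zero Y h1

end Pool.Agent.H86.TT
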