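import Pool.Agent.H13.CA.FD

/-!
# Thick tensor-ideals: definitions

Triangulated and monoidal categories are those of Mathlib.  The definitions of `Pool/Agent/H13/CA/FD.lean`
(formal group laws, universal deformations, lifts) are used in `IsMorava`.
-/

open CategoryTheory Limits Pretriangulated MonoidalCategory

namespace Pool.Agent.H86.TT

universe w v u

/-- dualizable objects of a monoidal category -/
def IsDualizable {T : Type u} [Category.{v} T] [MonoidalCategory T] (X : T) : Prop :=
  ∃ Y : T, Nonempty (ExactPairing X Y)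

section

variable {T : Type u} [Category.{v} T] [HasZeroObject T] [Preadditive T] [HasShift T ℤ]
  [∀ n : ℤ, (shiftFunctor T n).Additive] [Pretriangulated T]

/-- The class `P` of objects contains `0` and is closed under suspensions, desuspensions, cofibres and
retracts. -/
structure IsThick (P : T → Prop) : Prop where
  zero : ∀ X, IsZero X → P X
  susp : ∀ X, P X → P (X⟦(1 : ℤ)⟧)
  desusp : ∀ X, P X → P (X⟦(-1 : ℤ)⟧)
  cofibre : ∀ (A B C : T) (f : A ⟶ B) (g : B ⟶ C) (h : C ⟶ A⟦(1 : ℤ)⟧),
    Triangle.mk f g h ∈ distTriang T → P A → P B → P C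
  retract : ∀ (A B : T) (i : A ⟶ B) (r : B ⟶ A), i ≫ r = 𝟙 A → P B → P A

/-- `B` belongs to the thick subcategory generated by `A`. -/
def InThick (A B : T) : Prop := ∀ P : T → Prop, IsThick P → P A → P B

variable [MonoidalCategory T]

/-- `B` belongs to the thick tensor-ideal generated by `A`. -/
def InIdeal (A B : T) : Prop :=
  ∀ P : T → Prop, IsThick P → (∀ X Y, P X → P (X ⊗ Y)) → P A → P B

/-- The tensor product is exact: `- ⊗ X` maps a distinguished triangle `A → B → C → A[1]` to a
distinguished triangle `A ⊗ X → B ⊗ X → C ⊗ X → (A ⊗ X)[1]`. -/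
def TensorExact (T : Type u) [Category.{v} T] [HasZeroObject T] [Preadditive T] [HasShift T ℤ]
    [∀ n : ℤ, (shiftFunctor T n).Additive] [Pretriangulated T] [MonoidalCategory T] : Prop :=
  ∀ (X A B C : T) (f : A ⟶ B) (g : B ⟶ C) (h : C ⟶ A⟦(1 : ℤ)⟧),
    Triangle.mk f g h ∈ distTriang T →
      ∃ h' : C ⊗ X ⟶ (A ⊗ X)⟦(1 : ℤ)⟧, Triangle.mk (f ▷ X) (g ▷ X) h' ∈ distTriang T

/-- A thick tensor-ideal of the category of dualizable objects: a class of dualizable objects which
contains `0` and is closed under suspensions and desuspensions, cofibres, retracts, and `X ↦ X ⊗ Y` for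
arbitrary dualizable `Y`. -/
structure IsThickTensorIdeal (C : T → Prop) : Prop where
  thick : IsThick C
  dual : ∀ X, C X → IsDualizable X
  tensor : ∀ X Y, C X → IsDualizable Y → C (X ⊗ Y)

/-- The class `D_j`.  Here `Ft j Z` says that `Z` is (the localization of) a finite spectrum of type
`≥ j`.  For `j ≤ n`: the dualizable objects which are retracts of some `Y ⊗ Z`, `Y` dualizable and `Z` a
finite spectrum of type `≥ j`.  For `j > n`: the zero objects. -/
def D (n : ℕ) (Ft : ℕ → T → Prop) (j : ℕ) (X : T) : Prop :=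
  (j ≤ n ∧ IsDualizable X ∧ ∃ (Y Z : T) (i : X ⟶ Y ⊗ Z) (r : Y ⊗ Z ⟶ X),
    IsDualizable Y ∧ Ft j Z ∧ i ≫ r = 𝟙 X) ∨ (n < j ∧ IsZero X)

end

section

variable {T : Type u} [Category.{v} T] [Preadditive T] [MonoidalCategory T] [MonoidalPreadditive T]

/-- If the ring `R` acts on `E`, it acts on `E ⊗ X`. -/
def whisk {R : Type w} [CommRing R] {E : T} (ρ : R →+* End E) (X : T) : R →+* End (E ⊗ X) where
  toFun r := (ρ r : E ⟶ E) ▷ X
  map_one' := by
    rw [map_one, End.one_def, id_whiskerRight, End.one_def]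
  map_mul' r s := by
    rw [map_mul, End.mul_def, comp_whiskerRight, End.mul_def]
  map_zero' := by
    rw [map_zero]
    exact MonoidalPreadditive.zero_whiskerRight
  map_add' r s := by
    rw [map_add]
    exact MonoidalPreadditive.add_whiskerRight _ _

/-- The Morava module `E^∨_0 X ⊕ E^∨_1 X`, where `E^∨_i X` is the group of morphisms from `1[i]` to
`E ⊗ X`, and the ring `R` acts through its action `ρ` on `E`. -/
noncomputable def MoravaModule [HasShift T ℤ] {R : Type w} [CommRing R] {E : T} (ρ : R →+* End E)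
    (X : T) : ModuleCat.{v} R :=
  (ModuleCat.restrictScalars (whisk ρ X)).obj
    (ModuleCat.of (End (E ⊗ X)) ((𝟙_ T ⟶ E ⊗ X) × ((𝟙_ T)⟦(1 : ℤ)⟧ ⟶ E ⊗ X)))

end

section

open Pool.Agent.H13.FD

variable {p : ℕ} [Fact p.Prime] {k : Type w} [Field k] {m : ℕ}

/-- The ideals `I_0 = 0` and `I_(j+1) = (p, w_1, .., w_j)`. -/
noncomputable def inv (p : ℕ) [Fact p.Prime] {k : Type w} [Field k] {m : ℕ}
    (F : FormalGroup (LT p k m)) : ℕ → Ideal (LT p k m)
  | 0 => ⊥
  | j + 1 => wIdeal p F j

/-- The properties of the category `T` of `K(n)`-local spectra, `n = m + 1`, and of Morava E-theory `E`,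
with `E_0 = W(k)⟦X_1, .., X_m⟧` and formal group law `F`, which are used in the classification of thick
tensor-ideals.  Each of them is a published theorem on `K(n)`-local spectra.  `ρ` is the action of `E_0`
on `E` by multiplication, so that `MoravaModule ρ X` is `E^∨_0 X ⊕ E^∨_1 X`, where
`E^∨_i X = π_i L_K(n) (E ∧ X)`; `Ft j Z`: `Z` is the `K(n)`-localization of a finite spectrum of type
`≥ j`. -/
structure IsMorava {T : Type u} [Category.{v} T] [HasZeroObject T] [Preadditive T] [HasShift T ℤ]
    [∀ n : ℤ, (shiftFunctor T n).Additive] [Pretriangulated T] [MonoidalCategory T]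
    [MonoidalPreadditive T] (F : FormalGroup (LT p k m)) (E : T) (ρ : LT p k m →+* End E)
    (Ft : ℕ → T → Prop) : Prop where
  /-- the tensor product is exact -/
  exact : TensorExact T
  /-- the dualizable objects form a thick subcategory -/
  dual : IsThick (IsDualizable (T := T))
  /-- the unit belongs to the thick tensor-ideal generated by `E` -/
  descent : InIdeal E (𝟙_ T)
  /-- the lifts of the automorphisms of the special fibre act on `E` -/
  action : ∀ a : (LT p k m ≃ₐ[WittVector p k] LT p k m) × PowerSeries (LT p k m), IsLift F a →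
    ∃ φ : E ≅ E, ∀ r : LT p k m, (ρ r : E ⟶ E) ≫ φ.hom = φ.hom ≫ ρ (a.1 r)
  /-- the Morava module of a dualizable object is finitely generated -/
  finite : ∀ X, IsDualizable X → Module.Finite (LT p k m) (MoravaModule ρ X)
  /-- the thick subcategory theorem for perfect `E`-modules, applied to `E ⊗ X` and `E ⊗ Y` -/
  perfect : ∀ X Y, IsDualizable X → IsDualizable Y →
    Module.support (LT p k m) (MoravaModule ρ Y) ⊆ Module.support (LT p k m) (MoravaModule ρ X) →
      InThick (E ⊗ X) (E ⊗ Y)
  /-- a dualizable object belongs to `D_j`, `0 ≤ j ≤ n`, iff its Morava module is `I_j`-torsion -/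
  torsion : ∀ j, j ≤ m + 1 → ∀ X, IsDualizable X →
    (D (m + 1) Ft j X ↔ ∀ x : MoravaModule ρ X, ∃ N : ℕ, ∀ r ∈ inv p F j ^ N, r • x = 0)

end

end Pool.Agent.H86.TT
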